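import Pool.Agent.Helper54.SRD.Basic

/-!
# CHG: the speed can be measured in any chart
-/

open Set Filter MeasureTheory
open scoped Manifold ContDiff Topology

noncomputable section

namespace Pool.Agent.Helper54.SRD

variable {E : Type*} [NormedAddCommGroup E] [NormedSpace ℝ E] [FiniteDimensional ℝ E]
variable {M : Type*} [TopologicalSpace M] [ChartedSpace E M] [IsManifold 𝓘(ℝ, E) ∞ M]

omit [FiniteDimensional ℝ E] in
theorem chg_key (hNM : S_NM E) (G : AMetric E M) (c : ℝ) (γ : ℝ → M) (t : ℝ) (x y : M)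
    (hc : 0 ≤ c) (hγ : ContinuousAt γ t) (hx : γ t ∈ src E x) (hy : γ t ∈ src E y)
    (h : ∀ δ > 0, ∀ᶠ p : ℝ × ℝ in 𝓝 (t, t),
      nm (G.G y (ch y (γ t))) (ch y (γ p.2) - ch y (γ p.1)) ≤ (c + δ) * |p.2 - p.1|) :
    ∀ δ > 0, ∀ᶠ p : ℝ × ℝ in 𝓝 (t, t),
      nm (G.G x (ch x (γ t))) (ch x (γ p.2) - ch x (γ p.1)) ≤ (c + δ) * |p.2 - p.1| := by
  intro δ hδ
  have hov : (ch y (γ t) : E) ∈ ov y x := mem_ov hy hx
  have htr : tr y x (ch y (γ t) : E) = ch x (γ t) := tr_ch hy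
  have hxt : (ch x (γ t) : E) ∈ tgt E x := ch_mem hx
  have hyt : (ch y (γ t) : E) ∈ tgt E y := ch_mem hy
  obtain ⟨hadd, -, -, -, C, hC, hCu⟩ := hNM (G.G x (ch x (γ t)))
    ⟨G.symm x _ hxt, G.pos x _ hxt⟩
  obtain ⟨-, -, -, ⟨m, hm, hmu⟩, -⟩ := hNM (G.G y (ch y (γ t)))
    ⟨G.symm y _ hyt, G.pos y _ hyt⟩
  have hstrict : HasStrictFDerivAt (tr y x : E → E) (fderiv ℝ (tr y x) (ch y (γ t) : E))
      (ch y (γ t)) := (contDiffAt_tr hov).hasStrictFDerivAt (by simp)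
  have hcd : 0 < c + δ / 2 := by positivity
  set ε : ℝ := δ * m / (2 * C * (c + δ / 2)) with hε
  have hεpos : 0 < ε := by positivity
  have h1 := hstrict.isLittleO.def hεpos
  have ht1 : Tendsto (fun p : ℝ × ℝ => γ p.1) (𝓝 (t, t)) (𝓝 (γ t)) :=
    hγ.tendsto.comp (continuous_fst.tendsto (t, t))
  have ht2 : Tendsto (fun p : ℝ × ℝ => γ p.2) (𝓝 (t, t)) (𝓝 (γ t)) :=
    hγ.tendsto.comp (continuous_snd.tendsto (t, t))
  have htz : Tendsto (fun p : ℝ × ℝ => ((ch y (γ p.2) : E), (ch y (γ p.1) : E))) (𝓝 (t, t))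
      (𝓝 ((ch y (γ t) : E), (ch y (γ t) : E))) :=
    ((continuousAt_ch hy).tendsto.comp ht2).prodMk_nhds ((continuousAt_ch hy).tendsto.comp ht1)
  have h2 := htz.eventually h1
  have hsx : src E x ∈ 𝓝 (γ t) := (isOpen_src x).mem_nhds hx
  have hsy : src E y ∈ 𝓝 (γ t) := (isOpen_src y).mem_nhds hy
  filter_upwards [h2, h (δ / 2) (by positivity), ht1.eventually hsx, ht1.eventually hsy,
    ht2.eventually hsx, ht2.eventually hsy] with p hp hq h1x h1y h2x h2y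

  rw [tr_ch h1y, tr_ch h2y] at hp
  set Δ : E := ch y (γ p.2) - ch y (γ p.1) with hΔ
  set L : E →L[ℝ] E := fderiv ℝ (tr y x) (ch y (γ t) : E) with hL
  have e1 : (ch x (γ p.2) - ch x (γ p.1) : E)
      = L Δ + (ch x (γ p.2) - ch x (γ p.1) - L Δ) := by abel
  have e2 : nm (G.G x (ch x (γ t))) (L Δ) = nm (G.G y (ch y (γ t))) Δ := by
    unfold nm
    rw [G.trans y x _ hov Δ Δ, htr]
  have e3 : nm (G.G x (ch x (γ t))) (ch x (γ p.2) - ch x (γ p.1) - L Δ) ≤ C * (ε * ‖Δ‖) :=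
    (hCu _).trans (mul_le_mul_of_nonneg_left hp hC.le)
  have e4 : ‖Δ‖ ≤ (c + δ / 2) * |p.2 - p.1| / m := by
    rw [le_div_iff₀ hm]
    calc ‖Δ‖ * m = m * ‖Δ‖ := mul_comm _ _
      _ ≤ _ := hmu Δ
      _ ≤ _ := hq
  have e5 : C * (ε * ‖Δ‖) ≤ (δ / 2) * |p.2 - p.1| := by
    calc C * (ε * ‖Δ‖) ≤ C * (ε * ((c + δ / 2) * |p.2 - p.1| / m)) := by gcongr
      _ = (δ / 2) * |p.2 - p.1| := by
        rw [hε]
        field_simp
  calc nm (G.G x (ch x (γ t))) (ch x (γ p.2) - ch x (γ p.1))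
      = nm (G.G x (ch x (γ t))) (L Δ + (ch x (γ p.2) - ch x (γ p.1) - L Δ)) := by rw [← e1]
    _ ≤ nm (G.G x (ch x (γ t))) (L Δ)
        + nm (G.G x (ch x (γ t))) (ch x (γ p.2) - ch x (γ p.1) - L Δ) := hadd _ _
    _ ≤ (c + δ / 2) * |p.2 - p.1| + (δ / 2) * |p.2 - p.1| := by
        rw [e2]
        exact add_le_add hq (e3.trans e5)
    _ = (c + δ) * |p.2 - p.1| := by ring

/-- CHG: the speed can be measured in any chart. -/
theorem CHG (E : Type*) [NormedAddCommGroup E] [NormedSpace ℝ E] [FiniteDimensional ℝ E]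
    (M : Type*) [TopologicalSpace M] [ChartedSpace E M] [IsManifold 𝓘(ℝ, E) ∞ M]
    (hNM : S_NM E) : S_CHG E M := by
  intro G c γ t x hc hγ hx
  constructor
  · rintro ⟨-, h⟩
    exact chg_key hNM G c γ t x (γ t) hc hγ hx (mem_src _) h
  · intro h
    exact ⟨hγ, chg_key hNM G c γ t (γ t) x hc hγ (mem_src _) hx h⟩

end Pool.Agent.Helper54.SRD
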